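import Pool.Agent.H436.Arc.Ex

/-! Inscribed squares in Jordan curves (and in plane sets that contain them) without any regularity:
one point runs along an arc of the curve, back and forth, while its partner jumps between the ends
of the complementary arc. -/

set_option autoImplicit false

namespace Pool.Agent.Results.MP_42173d_gt.DiskTwoLines

/-- Let `C` be a Jordan curve in the disk `|z| ≤ √2`, parametrised by `c : ℝ → ℂ` of period `1`; let
`a = c 0` and `b = c p`, `0 < p < 1`, and let `K = c [0, p]` and `γ = c [p, 1]` be the two arcs of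
`C` between `a` and `b`. Let `Re (z conj ν) = x₀` and `Re (z conj ν') = x₁` be lines, each of which
separates the open unit disks around `a` and `b`. For a point `B` let `B' = (1 - i) B / 2` and
`B'' = (1 + i) B / 2` (`B` turned by 45 degrees in both directions, and shrunk by `√2`). Suppose that

* if `B` is on `γ` and `B'` is on the first line, then `B ≠ a, b` and each point `A` of `K` satisfies
  `|A - B'| ≥ 1` or `|A - 2 B'| ≥ √2`;
* if `B` is on `γ` and `B''` is on the second line, then `B ≠ a, b` and each point `A` of `K`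
  satisfies `|A - B''| ≥ 1` or `|A - 2 B''| ≥ √2`.

Then every plane set that contains `C` contains the four vertices of a square. Nothing is assumed
about the regularity of the arcs, and `γ` may cross the lines arbitrarily often. (Example: `K` is a
half circle of the boundary of a disk and `γ` is any arc in this disk that misses two radial segments,
one in each of the two quadrants of the half disk spanned by `K`, outside the concentric disk with
`√2 - 1` times the radius. This case is worked out in the file `Pool.Agent.H436.Arc.Ex`.) -/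
theorem result (c : ℝ → ℂ) (hc : Continuous c) (hper : ∀ t, c (t + 1) = c t)
    (hinj : Set.InjOn c (Set.Ico 0 1)) (hd : ∀ t, ‖c t‖ ≤ √2) (p : ℝ) (hp0 : 0 < p) (hp1 : p < 1)
    (ν ν' : ℂ) (x₀ x₁ : ℝ) (hν : ‖ν‖ = 1) (hν' : ‖ν'‖ = 1)
    (ha : x₀ + 1 ≤ (c 0 * (starRingEnd ℂ) ν).re) (hb : (c p * (starRingEnd ℂ) ν).re ≤ x₀ - 1)
    (ha' : x₁ + 1 ≤ (c 0 * (starRingEnd ℂ) ν').re) (hb' : (c p * (starRingEnd ℂ) ν').re ≤ x₁ - 1)
    (h1 : ∀ t ∈ Set.Icc p 1, ((1 - Complex.I) / 2 * c t * (starRingEnd ℂ) ν).re = x₀ →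
      c t ≠ c 0 ∧ c t ≠ c p ∧ ∀ s ∈ Set.Icc 0 p, 1 ≤ ‖c s - (1 - Complex.I) / 2 * c t‖ ∨
        √2 ≤ ‖c s - (1 - Complex.I) * c t‖)
    (h2 : ∀ t ∈ Set.Icc p 1, ((1 + Complex.I) / 2 * c t * (starRingEnd ℂ) ν').re = x₁ →
      c t ≠ c 0 ∧ c t ≠ c p ∧ ∀ s ∈ Set.Icc 0 p, 1 ≤ ‖c s - (1 + Complex.I) / 2 * c t‖ ∨
        √2 ≤ ‖c s - (1 + Complex.I) * c t‖)
    (X : Set ℂ) (hX : Set.range c ⊆ X) :
    ∃ z v : ℂ, v ≠ 0 ∧ z + v ∈ X ∧ z + Complex.I * v ∈ X ∧ z - v ∈ X ∧
      z - Complex.I * v ∈ X := by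
  by_contra hno
  have L : H763R2.An.Loop c := ⟨hc, hper⟩
  have J := H765R3.Peg.inj_of L hinj
  refine H436.Arc.disk L J ?_ hp0 hp1 hd hν hν' ha hb ha' hb' h1 h2
  rintro ⟨z, w, hw, m1, m2, m3, m4⟩
  apply hno
  have hI : (1 + Complex.I : ℂ) ≠ 0 := by
    intro h
    have := congrArg Complex.re h
    simp at this
  refine ⟨z + (1 + Complex.I) * w / 2, (1 + Complex.I) * w / 2,
    div_ne_zero (mul_ne_zero hI hw) two_ne_zero, hX ?_, hX ?_, hX ?_, hX ?_⟩
  · convert m3 using 1; ring
  · convert m4 using 1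
    linear_combination w / 2 * Complex.I_mul_I
  · convert m1 using 1; ring
  · convert m2 using 1
    linear_combination (-(w / 2)) * Complex.I_mul_I

end Pool.Agent.Results.MP_42173d_gt.DiskTwoLines
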