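import Pool.Agent.H436.Arc.Geo

/-! Inscribed squares in Jordan curves (and in plane sets that contain them): a criterion in terms of
distances only. Nothing is assumed about the regularity of the curve. One point runs along one arc of
the curve, back and forth, while its partner jumps between the two ends of the complementary arc, so
that it is always at the end which is farther away; it crosses the complementary arc at the moments
when the two ends are at the same distance. -/

set_option autoImplicit false

namespace Pool.Agent.Results.MP_42173d_gt.FarthestPointCriterion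

/-- Let `C` be a Jordan curve, parametrised by `c : ℝ → ℂ` of period `1`; let `a = c 0` and `b = c p`,
`0 < p < 1`, and let `K = c [0, p]` and `γ = c [p, 1]` be the two arcs of `C` between `a` and `b`.
Suppose that

* for each point `B` of `γ` no point of `C` is farther from `B` than `√2` times the larger one of the
  distances `|a - B|` and `|b - B|`;
* if `B` is on `γ` and `|a - B| = |b - B|`, then no point of `C` is farther from `B` than `√2 |A - B|`,
  for any point `A` of `K`.

Then every plane set that contains `C` contains the four vertices of a square. (Example: `K` is a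
half circle `|z| = 1`, `0 ≤ Im z`, and `γ` is any arc in the unit disk from `-1` to `1`, of any
regularity, that meets the vertical axis only below the height `3 - 2 √2 = 0.17...`.) -/
theorem result (c : ℝ → ℂ) (hc : Continuous c) (hper : ∀ t, c (t + 1) = c t)
    (hinj : Set.InjOn c (Set.Ico 0 1)) (p : ℝ) (hp0 : 0 < p) (hp1 : p < 1)
    (h1 : ∀ t ∈ Set.Icc p 1, ∀ u, ‖c u - c t‖ ≤ √2 * max ‖c 0 - c t‖ ‖c p - c t‖)
    (h2 : ∀ t ∈ Set.Icc p 1, ‖c 0 - c t‖ = ‖c p - c t‖ → ∀ s ∈ Set.Icc 0 p, ∀ u,
      ‖c u - c t‖ ≤ √2 * ‖c s - c t‖)
    (X : Set ℂ) (hX : Set.range c ⊆ X) :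
    ∃ z v : ℂ, v ≠ 0 ∧ z + v ∈ X ∧ z + Complex.I * v ∈ X ∧ z - v ∈ X ∧
      z - Complex.I * v ∈ X := by
  by_contra hno
  have L : H763R2.An.Loop c := ⟨hc, hper⟩
  have J := H765R3.Peg.inj_of L hinj
  refine H436.Arc.distances L J ?_ hp0 hp1 h1 h2
  rintro ⟨z, w, hw, m1, m2, m3, m4⟩
  apply hno
  have hI : (1 + Complex.I : ℂ) ≠ 0 := by
    intro h
    have := congrArg Complex.re h
    simp at this
  refine ⟨z + (1 + Complex.I) * w / 2, (1 + Complex.I) * w / 2,
    div_ne_zero (mul_ne_zero hI hw) two_ne_zero, hX ?_, hX ?_, hX ?_, hX ?_⟩
  · convert m3 using 1; ring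
  · convert m4 using 1
    linear_combination w / 2 * Complex.I_mul_I
  · convert m1 using 1; ring
  · convert m2 using 1
    linear_combination (-(w / 2)) * Complex.I_mul_I

end Pool.Agent.Results.MP_42173d_gt.FarthestPointCriterion
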